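import Mathlib

set_option autoImplicit false

/-!
# Nonlinearity of the ortho-derivative of a quadratic APN function

For `n ≥ 3` there is a quadratic APN function `F` on `F_2^n` whose ortho-derivative has
nonlinearity `0` if and only if `n = 3`.

Proof for `n ≥ 4`. Put `B(a, x) = F(x + a) + F(x) + F(a) + F(0)`, a symmetric bilinear map, and
suppose `b . π(a) = l . a` for all `a`, where `b ≠ 0`. Let `L` be the set of the `a` with
`l . a = 0`. For `a ≠ 0` the equation `B(a, x) = b` has exactly two solutions `x` if `a ∈ L`, and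
none otherwise; by symmetry all solutions are in `L`. Let `T` be the set of the pairs `(a, x)`
with `B(a, x) = b`, so `|T| = 2 (|L| - 1)`. Let `v . b = 1` and `Q(x) = v . (F(x) + F(0))`. Then
`Q(a) + Q(x) + Q(a + x) = 1` for `(a, x) ∈ T`, so of the three values one or all three are `1`.
As `(x, a)` and `(a + x, x)` are in `T` with `(a, x)`, counting the values `1` gives
`6 |S| = |T| + 2 |T_1|`, where `S` is the set of the `a ∈ L` with `Q(a) = 1` and `T_1` the set of
the `(a, x) ∈ T` with all three values `1`. So `3 |S| = |L| - 1 + |T_1|`. Here `|L|` is even, and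
`|T_1|` is even as `T_1` is symmetric and has no pair `(a, a)`. So `|S|` is odd.  But
`|S|` is the sum over `x ∈ F_2^n` of the value `Q(x) (1 + l . x)` of a polynomial of degree at most
`3 < n`, modulo `2`, and hence is even.
-/

namespace Pool.Agent.Results.MP_4cfb12_co.OrthoDerivative

open Finset

/-- The vector space `F_2^n`. -/
abbrev Vec (n : ℕ) : Type := Fin n → ZMod 2

/-- the standard dot product -/
def dot {n : ℕ} (u v : Vec n) : ZMod 2 := ∑ i, u i * v i

/-- `F` is APN: for all `a ≠ 0` and all `b`, the equation `F(x + a) + F(x) = b` has at most two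
solutions. -/
def IsAPN {n : ℕ} (F : Vec n → Vec n) : Prop :=
  ∀ a b : Vec n, a ≠ 0 → {x : Vec n | F (x + a) + F x = b}.ncard ≤ 2

/-- `F` has algebraic degree at most `d`: every coordinate function `F_j` has an algebraic normal
form `F_j(x) = ∑_S c_S ∏_{i ∈ S} x_i` with `c_S = 0` for all `S` with more than `d` elements. -/
def DegreeLE {n : ℕ} (d : ℕ) (F : Vec n → Vec n) : Prop :=
  ∀ j : Fin n, ∃ c : Finset (Fin n) → ZMod 2,
    (∀ S, d < S.card → c S = 0) ∧ ∀ x, F x j = ∑ S, c S * ∏ i ∈ S, x i

/-- `F` is quadratic: it has algebraic degree exactly `2`. -/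
def IsQuadratic {n : ℕ} (F : Vec n → Vec n) : Prop := DegreeLE 2 F ∧ ¬ DegreeLE 1 F

/-- `π` is the ortho-derivative of `F`: `π(0) = 0` and for `a ≠ 0` the vector `π(a)` is the unique
nonzero vector that is orthogonal to `D_aF(x) + D_aF(0)` for all `x`, where
`D_aF(x) = F(x + a) + F(x)`. -/
def IsOrthoDerivative {n : ℕ} (F π : Vec n → Vec n) : Prop :=
  π 0 = 0 ∧ ∀ a, a ≠ 0 → ∀ p,
    (p ≠ 0 ∧ ∀ x, dot p ((F (x + a) + F x) + (F (0 + a) + F 0)) = 0) ↔ p = π a

/-- The nonlinearity of `G`: the least number of the `x` with `b . G(x) ≠ l . x + c`, for `b ≠ 0`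
and an affine function `x ↦ l . x + c`. -/
noncomputable def NL {n : ℕ} (G : Vec n → Vec n) : ℕ :=
  sInf {k | ∃ (b l : Vec n) (c : ZMod 2), b ≠ 0 ∧ k = {x | dot b (G x) ≠ dot l x + c}.ncard}

/-! ### Basic facts -/

lemma z2 (a : ZMod 2) : a = 0 ∨ a = 1 := by revert a; decide

lemma z2_add_self (a : ZMod 2) : a + a = 0 := by revert a; decide

lemma v_add_self {n : ℕ} (x : Vec n) : x + x = 0 := by
  funext i; exact z2_add_self (x i)

lemma dot_add_right {n : ℕ} (x y z : Vec n) : dot x (y + z) = dot x y + dot x z := by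
  simp [dot, mul_add, Finset.sum_add_distrib]

lemma dot_zero_right {n : ℕ} (x : Vec n) : dot x 0 = 0 := by simp [dot]

lemma dot_comm {n : ℕ} (x y : Vec n) : dot x y = dot y x := by
  simp [dot, mul_comm]

lemma dot_smul_right {n : ℕ} (a : ZMod 2) (x y : Vec n) : dot x (a • y) = a * dot x y := by
  simp only [dot, Pi.smul_apply, smul_eq_mul, Finset.mul_sum]
  exact Finset.sum_congr rfl fun i _ => by ring

lemma exists_dot_eq_one {n : ℕ} {b : Vec n} (hb : b ≠ 0) : ∃ v : Vec n, dot v b = 1 := by
  obtain ⟨i, hi⟩ : ∃ i, b i ≠ 0 := by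
    by_contra h
    push Not at h
    exact hb (funext h)
  refine ⟨Pi.single i 1, ?_⟩
  have h1 : b i = 1 := by
    rcases z2 (b i) with h | h
    · exact absurd h hi
    · exact h
  simp [dot, Pi.single_apply, h1]

/-- the linear functional `x ↦ p . x` -/
def dotL {n : ℕ} (p : Vec n) : Vec n →ₗ[ZMod 2] ZMod 2 where
  toFun := dot p
  map_add' := dot_add_right p
  map_smul' := by
    intro c x
    rw [dot_smul_right]; rfl

lemma NL_eq_zero {n : ℕ} (hn : 0 < n) {G : Vec n → Vec n} (h : NL G = 0) :
    ∃ (b l : Vec n) (c : ZMod 2), b ≠ 0 ∧ ∀ x, dot b (G x) = dot l x + c := by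
  unfold NL at h
  rw [Nat.sInf_eq_zero] at h
  rcases h with h | h
  · obtain ⟨b, l, c, hb, h⟩ := h
    refine ⟨b, l, c, hb, ?_⟩
    have h' := (Set.ncard_eq_zero (Set.toFinite _)).1 h.symm
    intro x
    by_contra hx
    have : x ∈ ({x | dot b (G x) ≠ dot l x + c} : Set (Vec n)) := hx
    rw [h'] at this
    exact this
  · exfalso
    have : ({x | dot (fun _ => 1 : Vec n) (G x) ≠ dot 0 x + 0} : Set (Vec n)).ncard ∈
        {k | ∃ (b l : Vec n) (c : ZMod 2), b ≠ 0 ∧
          k = {x | dot b (G x) ≠ dot l x + c}.ncard} := by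
      refine ⟨_, _, _, ?_, rfl⟩
      intro h0
      have h1 : (1 : ZMod 2) = 0 := congrFun h0 ⟨0, hn⟩
      exact absurd h1 (by decide)
    rw [h] at this
    exact this

/-! ### The bilinear map -/

/-- `B(a, x) = F(x + a) + F(x) + (F(0 + a) + F(0))` -/
def B {n : ℕ} (F : Vec n → Vec n) (a x : Vec n) : Vec n := (F (x + a) + F x) + (F (0 + a) + F 0)

lemma monomial_third {n : ℕ} (S : Finset (Fin n)) (hS : S.card ≤ 2) (x y z : Vec n) :
    ∏ i ∈ S, (x + y + z) i + ∏ i ∈ S, (x + y) i + ∏ i ∈ S, (x + z) i + ∏ i ∈ S, (y + z) i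
      + ∏ i ∈ S, x i + ∏ i ∈ S, y i + ∏ i ∈ S, z i + ∏ i ∈ S, (0 : Vec n) i = 0 := by
  have h2 : (2 : ZMod 2) = 0 := rfl
  obtain h | h | h : S.card = 0 ∨ S.card = 1 ∨ S.card = 2 := by omega
  · rw [Finset.card_eq_zero] at h
    subst h
    simp only [prod_empty]
    decide
  · rw [Finset.card_eq_one] at h
    obtain ⟨i, rfl⟩ := h
    simp only [prod_singleton, Pi.add_apply, Pi.zero_apply]
    linear_combination (2 * x i + 2 * y i + 2 * z i) * h2
  · rw [Finset.card_eq_two] at h
    obtain ⟨i, j, hij, rfl⟩ := h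
    simp only [prod_pair hij, Pi.add_apply, Pi.zero_apply]
    linear_combination (2 * x i * x j + 2 * y i * y j + 2 * z i * z j + x i * y j + x i * z j
      + y i * x j + y i * z j + z i * x j + z i * y j) * h2

lemma third {n : ℕ} {F : Vec n → Vec n} (hF : DegreeLE 2 F) (x y z : Vec n) :
    F (x + y + z) + F (x + y) + F (x + z) + F (y + z) + F x + F y + F z + F 0 = 0 := by
  funext j
  obtain ⟨c, hc, hx⟩ := hF j
  simp only [Pi.add_apply, Pi.zero_apply]
  rw [hx, hx, hx, hx, hx, hx, hx, hx]
  simp only [← Finset.sum_add_distrib, ← mul_add]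
  apply Finset.sum_eq_zero
  intro S _
  by_cases hS : S.card ≤ 2
  · rw [monomial_third S hS, mul_zero]
  · rw [hc S (by omega), zero_mul]

lemma B_add_right {n : ℕ} {F : Vec n → Vec n} (hF : DegreeLE 2 F) (a x y : Vec n) :
    B F a (x + y) = B F a x + B F a y := by
  have h := third hF x y a
  have h2 : ∀ u : Vec n, u + u = 0 := v_add_self
  unfold B
  rw [zero_add]
  have e1 : F (x + y + a) = F (x + y) + F (x + a) + F (y + a) + F x + F y + F a + F 0 := by
    calc F (x + y + a)
        = F (x + y + a) + (F (x + y) + F (x + y)) + (F (x + a) + F (x + a)) +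
          (F (y + a) + F (y + a)) + (F x + F x) + (F y + F y) + (F a + F a) + (F 0 + F 0) := by
          simp only [h2, add_zero]
      _ = (F (x + y + a) + F (x + y) + F (x + a) + F (y + a) + F x + F y + F a + F 0) +
          (F (x + y) + F (x + a) + F (y + a) + F x + F y + F a + F 0) := by abel
      _ = _ := by rw [h, zero_add]
  rw [e1]
  calc F (x + y) + F (x + a) + F (y + a) + F x + F y + F a + F 0 + F (x + y) + (F a + F 0)
      = (F (x + y) + F (x + y)) + (F (x + a) + F x) + (F (y + a) + F y) + (F a + F a)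
          + (F 0 + F 0) := by abel
    _ = (F (x + a) + F x) + (F (y + a) + F y) + (F a + F a) + (F 0 + F 0) := by
          rw [h2 (F (x + y)), zero_add]
    _ = _ := by abel

lemma B_comm {n : ℕ} (F : Vec n → Vec n) (a x : Vec n) : B F a x = B F x a := by
  unfold B
  rw [zero_add, zero_add, add_comm x a]
  abel

lemma B_self {n : ℕ} (F : Vec n → Vec n) (a : Vec n) : B F a a = 0 := by
  unfold B
  rw [zero_add, v_add_self]
  have := v_add_self (F 0 + F a)
  rw [add_comm (F a) (F 0)]
  exact this

lemma B_zero_right {n : ℕ} (F : Vec n → Vec n) (a : Vec n) : B F a 0 = 0 := by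
  unfold B
  exact v_add_self _

/-- the linear map `x ↦ B(a, x)` -/
def BL {n : ℕ} {F : Vec n → Vec n} (hF : DegreeLE 2 F) (a : Vec n) :
    Vec n →ₗ[ZMod 2] Vec n where
  toFun := B F a
  map_add' := B_add_right hF a
  map_smul' := by
    intro c x
    rcases z2 c with rfl | rfl
    · simp [B_zero_right]
    · simp

lemma ker_B {n : ℕ} {F : Vec n → Vec n} (hA : IsAPN F) {a x : Vec n} (ha : a ≠ 0)
    (h : B F a x = 0) : x = 0 ∨ x = a := by
  have h1 := hA a (F (0 + a) + F 0) ha
  by_contra hx
  push Not at hx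
  have hsub : ({0, a, x} : Finset (Vec n)) ⊆
      (Set.toFinite {y : Vec n | F (y + a) + F y = F (0 + a) + F 0}).toFinset := by
    intro y hy
    rw [Set.Finite.mem_toFinset, Set.mem_ofPred_eq]
    simp only [mem_insert, mem_singleton] at hy
    rcases hy with rfl | rfl | rfl
    · rfl
    · rw [v_add_self, zero_add, add_comm]
    · unfold B at h
      have e : (F (y + a) + F y) = -(F (0 + a) + F 0) := eq_neg_of_add_eq_zero_left h
      rw [e]
      exact neg_eq_of_add_eq_zero_left (v_add_self _)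
  have hc := Finset.card_le_card hsub
  rw [← Set.ncard_eq_toFinset_card _ (Set.toFinite _)] at hc
  have h3 : ({0, a, x} : Finset (Vec n)).card = 3 := by
    rw [Finset.card_eq_three]
    exact ⟨0, a, x, ha.symm, fun h => hx.1 h.symm, fun h => hx.2 h.symm, rfl⟩
  omega

/-- The image of `B(a, .)` is the whole hyperplane orthogonal to `p`. -/
lemma mem_image {n : ℕ} {F : Vec n → Vec n} (hF : DegreeLE 2 F) (hA : IsAPN F) {a p b : Vec n}
    (ha : a ≠ 0) (hp : p ≠ 0) (horth : ∀ x, dot p (B F a x) = 0) (hb : dot p b = 0) :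
    ∃ x, B F a x = b := by
  have hker : (BL hF a).ker = Submodule.span (ZMod 2) {a} := by
    apply le_antisymm
    · intro x hx
      rw [LinearMap.mem_ker] at hx
      rcases ker_B hA ha hx with rfl | rfl
      · exact Submodule.zero_mem _
      · exact Submodule.mem_span_singleton_self _
    · rw [Submodule.span_le]
      rintro x rfl
      exact B_self F x
  have h1 : Module.finrank (ZMod 2) (BL hF a).ker = 1 := by
    rw [hker]; exact finrank_span_singleton ha
  have h2 := LinearMap.finrank_range_add_finrank_ker (BL hF a)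
  have h3 := LinearMap.finrank_range_add_finrank_ker (dotL p)
  have h4 : Module.finrank (ZMod 2) (dotL p).range = 1 := by
    have : (dotL p).range = ⊤ := by
      rw [LinearMap.range_eq_top]
      intro c
      obtain ⟨v, hv⟩ := exists_dot_eq_one hp
      refine ⟨c • v, ?_⟩
      show dot p (c • v) = c
      rw [dot_smul_right, dot_comm, hv, mul_one]
    rw [this, finrank_top, Module.finrank_self]
  have hle : (BL hF a).range ≤ (dotL p).ker := by
    rintro _ ⟨x, rfl⟩
    exact horth x
  have heq : (BL hF a).range = (dotL p).ker := by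
    apply Submodule.eq_of_le_of_finrank_eq hle
    rw [h1] at h2
    rw [h4] at h3
    omega
  have hb' : b ∈ (BL hF a).range := by
    rw [heq]
    exact hb
  obtain ⟨x, hx⟩ := hb'
  exact ⟨x, hx⟩

/-! ### Sums over the whole space -/

/-- The sum of `f(x) (1 + l . x)` over `F_2^n` vanishes if `f` has degree at most `2` and
`n ≥ 4`. -/
lemma sum_eq_zero {n : ℕ} (hn : 4 ≤ n) (c : Finset (Fin n) → ZMod 2)
    (hc : ∀ S, 2 < S.card → c S = 0) (l : Vec n) :
    ∑ x : Vec n, (∑ S, c S * ∏ i ∈ S, x i) * (1 + dot l x) = 0 := by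
  have h := MvPolynomial.sum_eval_eq_zero
    (f := ((∑ S, MvPolynomial.C (c S) * ∏ i ∈ S, MvPolynomial.X i) *
      (1 + ∑ i, MvPolynomial.C (l i) * MvPolynomial.X i) :
        MvPolynomial (Fin n) (ZMod 2))) ?_
  · rw [← h]
    apply Finset.sum_congr rfl
    intro x _
    simp [dot]
  · rw [ZMod.card, Fintype.card_fin]
    have h1 : (∑ S : Finset (Fin n), MvPolynomial.C (c S) * ∏ i ∈ S, MvPolynomial.X i :
        MvPolynomial (Fin n) (ZMod 2)).totalDegree ≤ 2 := by
      apply MvPolynomial.totalDegree_finsetSum_le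
      intro S _
      by_cases hS : S.card ≤ 2
      · refine (MvPolynomial.totalDegree_mul _ _).trans ?_
        rw [MvPolynomial.totalDegree_C, zero_add]
        refine (MvPolynomial.totalDegree_finsetProd _ _).trans ?_
        simp only [MvPolynomial.totalDegree_X, sum_const, smul_eq_mul, mul_one]
        exact hS
      · rw [hc S (by omega)]
        simp
    have h2 : (1 + ∑ i, MvPolynomial.C (l i) * MvPolynomial.X i :
        MvPolynomial (Fin n) (ZMod 2)).totalDegree ≤ 1 := by
      refine (MvPolynomial.totalDegree_add _ _).trans ?_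
      rw [MvPolynomial.totalDegree_one]
      apply max_le (by norm_num)
      apply MvPolynomial.totalDegree_finsetSum_le
      intro i _
      refine (MvPolynomial.totalDegree_mul _ _).trans ?_
      rw [MvPolynomial.totalDegree_C, MvPolynomial.totalDegree_X]
    have h3 := MvPolynomial.totalDegree_mul
      (∑ S : Finset (Fin n), MvPolynomial.C (c S) * ∏ i ∈ S, MvPolynomial.X i :
        MvPolynomial (Fin n) (ZMod 2)) (1 + ∑ i, MvPolynomial.C (l i) * MvPolynomial.X i)
    omega

lemma even_of_sum {n : ℕ} (g : Vec n → ZMod 2) (h : ∑ x, g x = 0) :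
    Even ((univ.filter (fun x => g x = 1)).card) := by
  have h1 : ∑ x, g x = ((univ.filter (fun x => g x = 1)).card : ZMod 2) := by
    rw [Finset.card_filter, Nat.cast_sum]
    apply Finset.sum_congr rfl
    intro x _
    rcases z2 (g x) with h | h <;> rw [h] <;> decide
  rw [h] at h1
  exact (ZMod.natCast_eq_zero_iff_even).1 h1.symm

/-! ### The contradiction for `n ≥ 4` -/

theorem contradiction {n : ℕ} (hn : 4 ≤ n) {F π : Vec n → Vec n} (hA : IsAPN F)
    (hF : DegreeLE 2 F) (hπ : IsOrthoDerivative F π) {b l : Vec n} {c : ZMod 2} (hb : b ≠ 0)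
    (h : ∀ x, dot b (π x) = dot l x + c) : False := by
  classical
  obtain ⟨h0, hπ⟩ := hπ
  have hc : c = 0 := by
    have := h 0
    rw [h0, dot_zero_right, dot_zero_right, zero_add] at this
    exact this.symm
  subst hc
  simp only [add_zero] at h
  obtain ⟨v, hv⟩ := exists_dot_eq_one hb
  -- solutions of `B a x = b`
  have hsolL : ∀ a x, B F a x = b → dot l a = 0 ∧ a ≠ 0 := by
    intro a x hax
    have ha : a ≠ 0 := by
      rintro rfl
      rw [B_comm, B_zero_right] at hax
      exact hb hax.symm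
    refine ⟨?_, ha⟩
    rw [← h a, ← hax, dot_comm]
    exact ((hπ a ha (π a)).2 rfl).2 x
  have hex : ∀ a, dot l a = 0 → a ≠ 0 → ∃ x, B F a x = b := by
    intro a hla ha
    have h1 := (hπ a ha (π a)).2 rfl
    apply mem_image hF hA ha h1.1 h1.2
    rw [dot_comm, h a, hla]
  -- the quadratic form
  obtain ⟨q, hq⟩ : ∃ q : Vec n → ZMod 2, ∀ x, q x = dot v (F x + F 0) := ⟨_, fun _ => rfl⟩
  have hqB : ∀ a x, B F a x = b → q a + q x + q (a + x) = 1 := by
    intro a x hax
    rw [hq, hq, hq, ← dot_add_right, ← dot_add_right, ← hv, ← hax]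
    congr 1
    unfold B
    rw [zero_add, add_comm x a]
    calc F a + F 0 + (F x + F 0) + (F (a + x) + F 0)
        = F (a + x) + F x + (F a + F 0) + (F 0 + F 0) := by abel
      _ = _ := by rw [v_add_self, add_zero]
  -- the sets
  obtain ⟨T, hT⟩ : ∃ T : Finset (Vec n × Vec n), T = univ.filter (fun p => B F p.1 p.2 = b) :=
    ⟨_, rfl⟩
  have hTm : ∀ a x, (a, x) ∈ T ↔ B F a x = b := by
    intro a x
    rw [hT, mem_filter]
    simp
  obtain ⟨L, hL⟩ : ∃ L : Finset (Vec n), L = univ.filter (fun x => dot l x = 0) := ⟨_, rfl⟩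
  have hLm : ∀ x, x ∈ L ↔ dot l x = 0 := by
    intro x
    rw [hL, mem_filter]
    simp
  obtain ⟨S, hS⟩ : ∃ S : Finset (Vec n), S = univ.filter (fun x => q x * (1 + dot l x) = 1) :=
    ⟨_, rfl⟩
  have hSm : ∀ x, x ∈ S ↔ dot l x = 0 ∧ q x = 1 := by
    intro x
    rw [hS, mem_filter]
    simp only [mem_univ, true_and]
    rcases z2 (q x) with h1 | h1 <;> rcases z2 (dot l x) with h2 | h2 <;> rw [h1, h2] <;> decide
  obtain ⟨T1, hT1⟩ : ∃ T1 : Finset (Vec n × Vec n),
      T1 = T.filter (fun p => q p.1 = 1 ∧ q p.2 = 1) := ⟨_, rfl⟩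
  -- fibres of `T`
  have hfib : ∀ a, dot l a = 0 → a ≠ 0 → (T.filter (fun p => p.1 = a)).card = 2 := by
    intro a hla ha
    obtain ⟨x, hx⟩ := hex a hla ha
    have : T.filter (fun p => p.1 = a) = {(a, x), (a, x + a)} := by
      ext ⟨a', y⟩
      rw [mem_filter, hTm]
      simp only [mem_insert, mem_singleton, Prod.mk.injEq]
      constructor
      · rintro ⟨h1, rfl⟩
        have h2 : B F a' (y + x) = 0 := by
          rw [B_add_right hF, h1, hx, v_add_self]
        rcases ker_B hA ha h2 with h3 | h3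
        · left
          refine ⟨rfl, ?_⟩
          calc y = y + (x + x) := by rw [v_add_self, add_zero]
            _ = (y + x) + x := by abel
            _ = x := by rw [h3, zero_add]
        · right
          refine ⟨rfl, ?_⟩
          calc y = y + (x + x) := by rw [v_add_self, add_zero]
            _ = x + (y + x) := by abel
            _ = x + a' := by rw [h3]
      · rintro (⟨rfl, rfl⟩ | ⟨rfl, rfl⟩)
        · exact ⟨hx, rfl⟩
        · refine ⟨?_, rfl⟩
          rw [B_add_right hF, hx, B_self, add_zero]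
    rw [this, Finset.card_pair]
    intro he
    have he := (Prod.mk.injEq _ _ _ _ ▸ he).2
    exact ha (by simpa using he.symm)
  have hfib' : ∀ a, ¬ (dot l a = 0 ∧ a ≠ 0) → (T.filter (fun p => p.1 = a)).card = 0 := by
    intro a ha
    rw [Finset.card_eq_zero, Finset.filter_eq_empty_iff]
    rintro ⟨a', x⟩ hp rfl
    exact ha (hsolL _ _ ((hTm _ _).1 hp))
  -- `|T| = 2 (|L| - 1)`
  have h0L : (0 : Vec n) ∈ L := by rw [hLm, dot_zero_right]
  have hcardT : T.card = 2 * (L.card - 1) := by
    rw [Finset.card_eq_sum_card_fiberwise (f := Prod.fst) (t := L.erase 0)]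
    · rw [Finset.sum_congr rfl (g := fun _ => 2)]
      · rw [Finset.sum_const, smul_eq_mul, Finset.card_erase_of_mem h0L, mul_comm]
      · intro a ha
        rw [mem_erase, hLm] at ha
        exact hfib a ha.2 ha.1
    · rintro ⟨a, x⟩ hp
      have := hsolL _ _ ((hTm _ _).1 (Finset.mem_coe.1 hp))
      rw [Finset.mem_coe, mem_erase, hLm]
      exact ⟨this.2, this.1⟩
  -- the number of pairs of `T` with `q a = 1`
  have hq0 : q 0 = 0 := by rw [hq, v_add_self, dot_zero_right]
  have hcardS : (T.filter (fun p => q p.1 = 1)).card = 2 * S.card := by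
    rw [Finset.card_eq_sum_card_fiberwise (f := Prod.fst) (t := S)]
    · rw [Finset.sum_congr rfl (g := fun _ => 2)]
      · rw [Finset.sum_const, smul_eq_mul, mul_comm]
      · intro a ha
        rw [hSm] at ha
        have ha0 : a ≠ 0 := by
          rintro rfl
          rw [hq0] at ha
          exact absurd ha.2 (by decide)
        rw [Finset.filter_filter]
        refine Eq.trans ?_ (hfib a ha.1 ha0)
        congr 1
        apply Finset.filter_congr
        rintro ⟨a', x⟩ _
        constructor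
        · exact fun h => h.2
        · rintro rfl
          exact ⟨ha.2, rfl⟩
    · rintro ⟨a, x⟩ hp
      rw [Finset.mem_coe, mem_filter] at hp
      have := hsolL _ _ ((hTm _ _).1 hp.1)
      rw [Finset.mem_coe, hSm]
      exact ⟨this.1, hp.2⟩
  have hswap : (T.filter (fun p => q p.2 = 1)).card = (T.filter (fun p => q p.1 = 1)).card := by
    refine Finset.card_bij' (fun p _ => (p.2, p.1)) (fun p _ => (p.2, p.1)) ?_ ?_ ?_ ?_
    · rintro ⟨a, x⟩ hp
      rw [mem_filter, hTm] at hp ⊢
      exact ⟨by rw [B_comm]; exact hp.1, hp.2⟩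
    · rintro ⟨a, x⟩ hp
      rw [mem_filter, hTm] at hp ⊢
      exact ⟨by rw [B_comm]; exact hp.1, hp.2⟩
    · rintro ⟨a, x⟩ _; rfl
    · rintro ⟨a, x⟩ _; rfl
  have hsum : (T.filter (fun p => q (p.1 + p.2) = 1)).card =
      (T.filter (fun p => q p.1 = 1)).card := by
    have hmem : ∀ a x, B F a x = b → B F (a + x) x = b := by
      intro a x hax
      rw [B_comm, B_add_right hF, B_self, add_zero, B_comm, hax]
    have hid : ∀ a x : Vec n, a + x + x = a := by
      intro a x
      rw [add_assoc, v_add_self, add_zero]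
    refine Finset.card_bij' (fun p _ => (p.1 + p.2, p.2)) (fun p _ => (p.1 + p.2, p.2))
      ?_ ?_ ?_ ?_
    · rintro ⟨a, x⟩ hp
      rw [mem_filter, hTm] at hp ⊢
      exact ⟨hmem _ _ hp.1, hp.2⟩
    · rintro ⟨a, x⟩ hp
      rw [mem_filter, hTm] at hp ⊢
      refine ⟨hmem _ _ hp.1, ?_⟩
      simp only
      rw [hid]
      exact hp.2
    · rintro ⟨a, x⟩ _
      simp only [hid]
    · rintro ⟨a, x⟩ _
      simp only [hid]
  -- counting
  have hcount : (T.filter (fun p => q p.1 = 1)).card + (T.filter (fun p => q p.2 = 1)).card +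
      (T.filter (fun p => q (p.1 + p.2) = 1)).card = T.card + 2 * T1.card := by
    rw [hT1, Finset.card_filter, Finset.card_filter, Finset.card_filter, Finset.card_filter,
      Finset.card_eq_sum_ones T, Finset.mul_sum, ← Finset.sum_add_distrib,
      ← Finset.sum_add_distrib, ← Finset.sum_add_distrib]
    apply Finset.sum_congr rfl
    rintro ⟨a, x⟩ hp
    have h1 := hqB a x ((hTm _ _).1 hp)
    simp only
    generalize q a = u at h1 ⊢
    generalize q x = w at h1 ⊢
    generalize q (a + x) = t at h1 ⊢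
    revert u w t
    decide
  -- `|T1|` is even
  have hT1even : Even T1.card := by
    rw [← ZMod.natCast_eq_zero_iff_even]
    have : ∑ p ∈ T1, (1 : ZMod 2) = 0 := by
      refine Finset.sum_involution (fun p _ => (p.2, p.1)) ?_ ?_ ?_ ?_
      · intro _ _; decide
      · rintro ⟨a, x⟩ hp _ he
        rw [hT1, mem_filter, hTm] at hp
        have h1 : x = a := (Prod.mk.injEq _ _ _ _ ▸ he).1
        rw [h1, B_self] at hp
        exact hb hp.1.symm
      · rintro ⟨a, x⟩ hp
        rw [hT1, mem_filter, hTm] at hp ⊢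
        exact ⟨by rw [B_comm]; exact hp.1, hp.2.2, hp.2.1⟩
      · rintro ⟨a, x⟩ _; rfl
    rw [← this]
    simp
  -- `|S|` is even
  have hSeven : Even S.card := by
    rw [hS]
    apply even_of_sum
    -- `q` has degree at most two
    choose c hc hx using hF
    have hq' : ∀ x, q x = ∑ S, (∑ j, v j * c j S + if S = ∅ then dot v (F 0) else 0) *
        ∏ i ∈ S, x i := by
      intro x
      rw [hq, dot_add_right]
      simp only [add_mul, Finset.sum_add_distrib, ite_mul, zero_mul, Finset.sum_ite_eq', mem_univ,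
        if_true, prod_empty, mul_one]
      congr 1
      simp only [dot, hx, Finset.mul_sum, Finset.sum_mul]
      rw [Finset.sum_comm]
      apply Finset.sum_congr rfl
      intro S _
      apply Finset.sum_congr rfl
      intro j _
      ring
    rw [← sum_eq_zero hn (fun S => ∑ j, v j * c j S + if S = ∅ then dot v (F 0) else 0) ?_ l]
    · apply Finset.sum_congr rfl
      intro x _
      rw [hq']
    · intro S hS
      have h1 : S ≠ ∅ := by
        rintro rfl
        simp at hS
      simp only [if_neg h1, add_zero]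
      apply Finset.sum_eq_zero
      intro j _
      rw [hc j S hS, mul_zero]
  -- `|L|` is even
  have hLeven : Even L.card := by
    have h1 : L = univ.filter (fun x => 1 * (1 + dot l x) = 1) := by
      rw [hL]
      apply Finset.filter_congr
      intro x _
      rcases z2 (dot l x) with h | h <;> rw [h] <;> decide
    rw [h1]
    apply even_of_sum
    rw [← sum_eq_zero hn (fun S => if S = ∅ then 1 else 0) ?_ l]
    · apply Finset.sum_congr rfl
      intro x _
      simp
    · intro S hS
      have h1 : S ≠ ∅ := by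
        rintro rfl
        simp at hS
      rw [if_neg h1]
  have hLpos : 0 < L.card := Finset.card_pos.2 ⟨0, h0L⟩
  obtain ⟨s, hs⟩ := hSeven
  obtain ⟨t, ht⟩ := hT1even
  obtain ⟨m, hm⟩ := hLeven
  rw [hswap, hsum, hcardS, hcardT] at hcount
  omega

/-! ### The example for `n = 3` -/

/-- `F(x) = (x_1 x_2, x_2 x_3, x_3 x_1)` -/
def F3 (x : Vec 3) : Vec 3 := ![x 0 * x 1, x 1 * x 2, x 2 * x 0]

/-- its ortho-derivative -/
def pi3 (a : Vec 3) : Vec 3 := ![a 2, a 0, a 1]

lemma apn3 : IsAPN F3 := by
  intro a b ha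
  have h : ∀ a b : Vec 3, a ≠ 0 → (univ.filter (fun x : Vec 3 => F3 (x + a) + F3 x = b)).card ≤ 2 := by
    decide
  have h1 := h a b ha
  rw [Set.ncard_eq_toFinset_card']
  refine le_trans (le_of_eq ?_) h1
  congr 1
  ext x
  simp

lemma degLE3 : DegreeLE 2 F3 := by
  intro j
  fin_cases j
  · refine ⟨fun S => if S = {0, 1} then 1 else 0, ?_, ?_⟩
    · intro S hS
      revert S; decide
    · decide
  · refine ⟨fun S => if S = {1, 2} then 1 else 0, ?_, ?_⟩
    · intro S hS
      revert S; decide
    · decide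
  · refine ⟨fun S => if S = {2, 0} then 1 else 0, ?_, ?_⟩
    · intro S hS
      revert S; decide
    · decide

lemma not_degLE3 : ¬ DegreeLE 1 F3 := by
  intro h
  obtain ⟨c, hc, hx⟩ := h 0
  -- the second difference of `F_0` in the directions `e_0, e_1` is `1`
  have key : ∀ S : Finset (Fin 3), c S * (∏ i ∈ S, (![1, 1, 0] : Vec 3) i + ∏ i ∈ S, (![1, 0, 0] : Vec 3) i +
      ∏ i ∈ S, (![0, 1, 0] : Vec 3) i + ∏ i ∈ S, (![0, 0, 0] : Vec 3) i) = 0 := by
    intro S
    by_cases hS : S.card ≤ 1
    · have : ∀ S : Finset (Fin 3), S.card ≤ 1 →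
        (∏ i ∈ S, (![1, 1, 0] : Vec 3) i + ∏ i ∈ S, (![1, 0, 0] : Vec 3) i +
        ∏ i ∈ S, (![0, 1, 0] : Vec 3) i + ∏ i ∈ S, (![0, 0, 0] : Vec 3) i) = 0 := by decide
      rw [this S hS, mul_zero]
    · rw [hc S (by omega), zero_mul]
  have h1 : F3 ![1, 1, 0] 0 + F3 ![1, 0, 0] 0 + F3 ![0, 1, 0] 0 + F3 ![0, 0, 0] 0 = 0 := by
    rw [hx, hx, hx, hx, ← Finset.sum_add_distrib, ← Finset.sum_add_distrib,
      ← Finset.sum_add_distrib]
    apply Finset.sum_eq_zero
    intro S _
    rw [← mul_add, ← mul_add, ← mul_add]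
    exact key S
  exact absurd h1 (by decide)

lemma ortho3 : IsOrthoDerivative F3 pi3 := by
  refine ⟨by decide, ?_⟩
  intro a ha p
  revert a p
  decide

lemma NL3 : NL pi3 = 0 := by
  unfold NL
  rw [Nat.sInf_eq_zero]
  left
  refine ⟨![1, 0, 0], ![0, 0, 1], 0, by decide, ?_⟩
  symm
  rw [Set.ncard_eq_zero (Set.toFinite _), Set.eq_empty_iff_forall_notMem]
  intro x hx
  apply hx
  revert x
  decide

/-- For `n ≥ 3` there is a quadratic APN function on `F_2^n` whose ortho-derivative has nonlinearity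
`0` if and only if `n = 3`. -/
theorem result (n : ℕ) (hn : 3 ≤ n) :
    (∃ F π : Vec n → Vec n, IsQuadratic F ∧ IsAPN F ∧ IsOrthoDerivative F π ∧ NL π = 0) ↔
      n = 3 := by
  constructor
  · rintro ⟨F, π, ⟨hF, -⟩, hA, hπ, hNL⟩
    by_contra h3
    obtain ⟨b, l, c, hb, h⟩ := NL_eq_zero (by omega) hNL
    exact contradiction (by omega) hA hF hπ hb h
  · rintro rfl
    exact ⟨F3, pi3, ⟨degLE3, not_degLE3⟩, apn3, ortho3, NL3⟩

end Pool.Agent.Results.MP_4cfb12_co.OrthoDerivative
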